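import Pool.Agent.Helper19.SDim.Spec

/-! SDIM, part EXIST: Euler-Lagrange equation of the minimiser. -/

noncomputable section

open MeasureTheory Filter Set Metric
open scoped Topology ENNReal NNReal RealInnerProductSpace ContDiff Gradient

namespace Helper19.SDim

namespace H71

variable {N : ℕ}

theorem grad_add_mul {f g : E N → ℝ} (t : ℝ) {x : E N} (hf : DifferentiableAt ℝ f x)
    (hg : DifferentiableAt ℝ g x) :
    ∇ (fun y => f y + t * g y) x = ∇ f x + t • ∇ g x := by
  unfold gradient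
  have h1 : fderiv ℝ (fun y => f y + t * g y) x = fderiv ℝ f x + t • fderiv ℝ g x := by
    have := (hf.hasFDerivAt.add (hg.hasFDerivAt.const_mul t))
    exact this.fderiv
  rw [h1, map_add, map_smulₛₗ]
  simp

theorem grad_neg {f : E N → ℝ} {x : E N} : ∇ (fun y => - f y) x = - ∇ f x := by
  unfold gradient
  rw [fderiv_fun_neg, map_neg]

theorem grad_cont {f : E N → ℝ} (hf : ContDiff ℝ ∞ f) : Continuous (fun x => ∇ f x) := by
  unfold gradient
  have h : Continuous (fun x => fderiv ℝ f x) := hf.continuous_fderiv (by simp)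
  exact (InnerProductSpace.toDual ℝ (E N)).symm.continuous.comp h

theorem grad_supp {f : E N → ℝ} (hf : HasCompactSupport f) :
    HasCompactSupport (fun x => ∇ f x) := by
  have h : HasCompactSupport (fderiv ℝ f) := hf.fderiv (𝕜 := ℝ)
  exact h.comp_left (g := (InnerProductSpace.toDual ℝ (E N)).symm) (by simp)

theorem test_neg {Ω : Set (E N)} {φ : E N → ℝ} (h : Test Ω φ) : Test Ω (fun x => - φ x) := by
  refine ⟨h.1.neg, ?_, ?_⟩
  · exact h.2.1.comp_left (g := fun y : ℝ => -y) (by simp)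
  · have : tsupport (fun x => - φ x) ⊆ tsupport φ := by
      apply closure_mono
      intro x hx
      simpa using hx
    exact this.trans h.2.2

theorem test_add {Ω : Set (E N)} {φ ψ : E N → ℝ} (h : Test Ω φ) (h' : Test Ω ψ) (t : ℝ) :
    Test Ω (fun x => φ x + t * ψ x) := by
  refine ⟨h.1.add (contDiff_const.mul h'.1), ?_, ?_⟩
  · have h2 : HasCompactSupport (fun x => t * ψ x) :=
      h'.2.1.comp_left (g := fun y : ℝ => t * y) (by simp)
    exact h.2.1.add h2
  · have h3 : tsupport (fun x => φ x + t * ψ x) ⊆ tsupport φ ∪ tsupport ψ := by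
      rw [tsupport, tsupport, tsupport, ← closure_union]
      apply closure_mono
      intro x hx
      simp only [Function.mem_support, mem_union] at hx ⊢
      by_contra hc
      push Not at hc
      apply hx
      rw [hc.1, hc.2]; simp
    exact h3.trans (union_subset h.2.2 h'.2.2)

/-- `‖b‖^(p-2) ⟪b, w⟫` is continuous in `b` for `1 < p`. -/
theorem cont_vec (p : ℝ) (hp : 1 < p) (w : E N) :
    Continuous (fun b : E N => ‖b‖ ^ (p - 2) * ⟪b, w⟫) := by
  rw [continuous_iff_continuousAt]
  intro b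
  by_cases hb : b = 0
  · subst hb
    rw [ContinuousAt]
    simp only [inner_zero_left, mul_zero]
    rw [tendsto_zero_iff_norm_tendsto_zero]
    apply squeeze_zero (g := fun b : E N => ‖b‖ ^ (p - 1) * ‖w‖) (fun _ => norm_nonneg _)
    · intro b
      by_cases hb0 : b = 0
      · subst hb0
        simp only [inner_zero_left, mul_zero, norm_zero]
        positivity
      · have hb1 : 0 < ‖b‖ := norm_pos_iff.2 hb0
        rw [norm_mul, Real.norm_of_nonneg (Real.rpow_nonneg hb1.le _)]
        have h2 : ‖b‖ ^ (p - 1) = ‖b‖ ^ (p - 2) * ‖b‖ := by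
          have : p - 1 = (p - 2) + 1 := by ring
          rw [this, Real.rpow_add_one hb1.ne']
        rw [h2, mul_assoc]
        apply mul_le_mul_of_nonneg_left _ (Real.rpow_nonneg hb1.le _)
        exact norm_inner_le_norm b w
    · have h3 : Tendsto (fun b : E N => ‖b‖ ^ (p - 1) * ‖w‖) (𝓝 0)
          (𝓝 (‖(0 : E N)‖ ^ (p - 1) * ‖w‖)) := by
        apply Tendsto.mul_const
        exact (continuous_norm.tendsto (0 : E N)).rpow_const (Or.inr (by linarith))
      rw [norm_zero, Real.zero_rpow (by linarith), zero_mul] at h3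
      exact h3
  · have hb1 : ‖b‖ ≠ 0 := norm_ne_zero_iff.2 hb
    apply ContinuousAt.mul
    · exact continuous_norm.continuousAt.rpow_const (Or.inl hb1)
    · exact (continuous_id.inner continuous_const).continuousAt

theorem vec_bound (p : ℝ) (hp : 1 < p) (hp2 : p < 2) (b w : E N) :
    ‖‖b‖ ^ (p - 2) * ⟪b, w⟫‖ ≤ (1 + ‖b‖) * ‖w‖ := by
  by_cases hb0 : b = 0
  · subst hb0
    simp
  · have hb1 : 0 < ‖b‖ := norm_pos_iff.2 hb0
    rw [norm_mul, Real.norm_of_nonneg (Real.rpow_nonneg hb1.le _)]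
    have h2 : ‖b‖ ^ (p - 1) = ‖b‖ ^ (p - 2) * ‖b‖ := by
      have : p - 1 = (p - 2) + 1 := by ring
      rw [this, Real.rpow_add_one hb1.ne']
    have h3 : ‖b‖ ^ (p - 1) ≤ 1 + ‖b‖ := by
      rcases le_total ‖b‖ 1 with h | h
      · have := Real.rpow_le_one hb1.le h (by linarith : (0:ℝ) ≤ p - 1)
        linarith
      · have := Real.rpow_le_rpow_of_exponent_le h (by linarith : p - 1 ≤ 1)
        rw [Real.rpow_one] at this
        linarith
    calc ‖b‖ ^ (p - 2) * ‖⟪b, w⟫‖ ≤ ‖b‖ ^ (p - 2) * (‖b‖ * ‖w‖) := by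
          gcongr
          exact norm_inner_le_norm b w
      _ = ‖b‖ ^ (p - 1) * ‖w‖ := by rw [h2]; ring
      _ ≤ (1 + ‖b‖) * ‖w‖ := by gcongr

/-- existence of a minimiser of the energy (with parentheses around the integrals) -/
def MinP : Prop := ∀ (N : ℕ) (p : ℝ) (Ω : Set (E N)) (F : E N → ℝ), 2 ≤ N → 1 < p → p < 2 →
  IsOpen Ω → Bornology.IsBounded Ω → MemLp F (ENNReal.ofReal (p / (p - 1))) (volume.restrict Ω) →
  ∃ u G, W0 Ω p u G ∧ ∀ v V, W0 Ω p v V →
    1 / p * (∫ x in Ω, ‖G x‖ ^ p) - (∫ x in Ω, F x * u x) ≤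
    1 / p * (∫ x in Ω, ‖V x‖ ^ p) - (∫ x in Ω, F x * v x)

end H71

open H71

theorem exist_core (hMin : MinP) (hVec : S_VEC) : S_EXIST := by
  intro N p Ω F hN hp1 hp2 hΩ hΩb hF
  obtain ⟨u, G, hW, hmin⟩ := hMin N p Ω F hN hp1 hp2 hΩ hΩb hF
  refine ⟨u, G, hW, ?_⟩
  have hvol : volume Ω < ⊤ := hΩb.measure_lt_top
  have : IsFiniteMeasure (volume.restrict Ω) := ⟨by rwa [Measure.restrict_apply_univ]⟩
  have hp0 : 0 < p := by linarith
  have hconj : (p / (p - 1)).HolderConjugate p := by
    have := (Real.HolderConjugate.conjExponent hp1).symm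
    simpa [Real.conjExponent] using this
  have hE1 : (1 : ℝ≥0∞) ≤ ENNReal.ofReal p := by
    rw [← ENNReal.ofReal_one]; exact ENNReal.ofReal_le_ofReal hp1.le
  have hEne : ENNReal.ofReal p ≠ 0 := by
    simp only [ne_eq, ENNReal.ofReal_eq_zero, not_le]; exact hp0
  obtain ⟨hu, hG, φs, hφs, htu, htG⟩ := hW
  have hGint : Integrable G (volume.restrict Ω) := hG.integrable hE1
  have hH : ENNReal.HolderTriple (ENNReal.ofReal (p / (p - 1))) (ENNReal.ofReal p) 1 :=
    hconj.ennrealOfReal
  have hFu : Integrable (fun x => F x * u x) (volume.restrict Ω) := hF.integrable_mul hu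
  have key : ∀ φ, Test Ω φ →
      ∫ x in Ω, F x * φ x ≤ ∫ x in Ω, ‖G x‖ ^ (p - 2) * ⟪G x, ∇ φ x⟫ := by
    intro φ hφ
    have hφc : Continuous φ := hφ.1.continuous
    have hgc : Continuous (fun x => ∇ φ x) := grad_cont hφ.1
    have hgs : HasCompactSupport (fun x => ∇ φ x) := grad_supp hφ.2.1
    have hφL : MemLp φ (ENNReal.ofReal p) (volume.restrict Ω) :=
      (hφc.memLp_of_hasCompactSupport hφ.2.1).restrict Ω
    have hgL : MemLp (fun x => ∇ φ x) (ENNReal.ofReal p) (volume.restrict Ω) :=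
      (hgc.memLp_of_hasCompactSupport hgs).restrict Ω
    have hFφ : Integrable (fun x => F x * φ x) (volume.restrict Ω) := hF.integrable_mul hφL
    obtain ⟨M, hM⟩ := hgs.exists_bound_of_continuous hgc
    have hM0 : 0 ≤ M := (norm_nonneg _).trans (hM 0)
    have hbt : ∀ t : ℝ, MemLp (fun x => G x + t • ∇ φ x) (ENNReal.ofReal p)
        (volume.restrict Ω) := fun t => hG.add (hgL.const_smul t)
    have hmeas : ∀ t : ℝ, AEStronglyMeasurable
        (fun x => ‖G x + t • ∇ φ x‖ ^ (p - 2) * ⟪G x + t • ∇ φ x, ∇ φ x⟫)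
        (volume.restrict Ω) := by
      intro t
      apply AEStronglyMeasurable.mul
      · exact ((hbt t).aestronglyMeasurable.norm.aemeasurable.pow_const _).aestronglyMeasurable
      · exact (hbt t).aestronglyMeasurable.inner hgc.aestronglyMeasurable
    have hbd : ∀ t : ℝ, |t| ≤ 1 → ∀ x, ‖‖G x + t • ∇ φ x‖ ^ (p - 2) *
        ⟪G x + t • ∇ φ x, ∇ φ x⟫‖ ≤ (1 + (‖G x‖ + M)) * M := by
      intro t ht x
      refine (vec_bound p hp1 hp2 _ _).trans ?_
      have h1 : ‖G x + t • ∇ φ x‖ ≤ ‖G x‖ + M := by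
        refine (norm_add_le _ _).trans ?_
        rw [norm_smul, Real.norm_eq_abs]
        have h3 := hM x
        have h4 : |t| * ‖∇ φ x‖ ≤ 1 * M := by gcongr
        linarith
      have h2 := hM x
      gcongr
    have hbint : Integrable (fun x => (1 + (‖G x‖ + M)) * M) (volume.restrict Ω) := by
      apply Integrable.mul_const
      exact (integrable_const _).add (hGint.norm.add (integrable_const _))
    have hint : ∀ t : ℝ, |t| ≤ 1 → Integrable (fun x => ‖G x + t • ∇ φ x‖ ^ (p - 2) *
        ⟪G x + t • ∇ φ x, ∇ φ x⟫) (volume.restrict Ω) := fun t ht =>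
      hbint.mono' (hmeas t) (Eventually.of_forall (hbd t ht))
    -- the inequality for `0 < t ≤ 1`
    have hineq : ∀ t : ℝ, 0 < t → t ≤ 1 → ∫ x in Ω, F x * φ x ≤
        ∫ x in Ω, ‖G x + t • ∇ φ x‖ ^ (p - 2) * ⟪G x + t • ∇ φ x, ∇ φ x⟫ := by
      intro t ht0 ht1
      have hat : |t| ≤ 1 := by rwa [abs_of_pos ht0]
      have hWt : W0 Ω p (fun x => u x + t * φ x) (fun x => G x + t • ∇ φ x) := by
        refine ⟨hu.add (hφL.const_mul t), hbt t, fun n x => φs n x + t * φ x,
          fun n => test_add (hφs n) hφ t, ?_, ?_⟩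
        · refine htu.congr ?_
          intro n
          congr 1
          funext x
          ring
        · refine htG.congr ?_
          intro n
          congr 1
          funext x
          rw [grad_add_mul t ((hφs n).1.differentiable (by simp) x)
            (hφ.1.differentiable (by simp) x), add_sub_add_right_eq_sub]
      have hm := hmin _ _ hWt
      have hI1 : Integrable (fun x => ‖G x‖ ^ p) (volume.restrict Ω) := by
        have := hG.integrable_norm_rpow hEne ENNReal.ofReal_ne_top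
        simpa [ENNReal.toReal_ofReal hp0.le] using this
      have hI2 : Integrable (fun x => ‖G x + t • ∇ φ x‖ ^ p) (volume.restrict Ω) := by
        have := (hbt t).integrable_norm_rpow hEne ENNReal.ofReal_ne_top
        simpa [ENNReal.toReal_ofReal hp0.le] using this
      have h1 : ∫ x in Ω, F x * (u x + t * φ x) =
          (∫ x in Ω, F x * u x) + t * ∫ x in Ω, F x * φ x := by
        rw [← integral_const_mul, ← integral_add hFu (hFφ.const_mul t)]
        congr 1
        funext x
        ring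
      rw [h1] at hm
      have h2 : ∫ x in Ω, ‖G x + t • ∇ φ x‖ ^ p ≤ (∫ x in Ω, ‖G x‖ ^ p) +
          p * t * ∫ x in Ω, ‖G x + t • ∇ φ x‖ ^ (p - 2) * ⟪G x + t • ∇ φ x, ∇ φ x⟫ := by
        rw [← integral_const_mul, ← integral_add hI1 ((hint t hat).const_mul _)]
        apply integral_mono hI2 (hI1.add ((hint t hat).const_mul _))
        intro x
        have h3 := (hVec N p hp1 hp2).2.1 (G x) (G x + t • ∇ φ x)
        have h4 : G x - (G x + t • ∇ φ x) = (-t) • ∇ φ x := by
          rw [neg_smul]; abel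
        rw [h4, inner_smul_right] at h3
        simp only [Pi.add_apply]
        nlinarith
      have h5 : 1 / p * ∫ x in Ω, ‖G x + t • ∇ φ x‖ ^ p ≤ 1 / p * (∫ x in Ω, ‖G x‖ ^ p) +
          t * ∫ x in Ω, ‖G x + t • ∇ φ x‖ ^ (p - 2) * ⟪G x + t • ∇ φ x, ∇ φ x⟫ := by
        have h6 := mul_le_mul_of_nonneg_left h2 (by positivity : (0:ℝ) ≤ 1 / p)
        rw [mul_add] at h6
        have h7 : 1 / p * (p * t * ∫ x in Ω, ‖G x + t • ∇ φ x‖ ^ (p - 2) *
            ⟪G x + t • ∇ φ x, ∇ φ x⟫) = t * ∫ x in Ω, ‖G x + t • ∇ φ x‖ ^ (p - 2) *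
            ⟪G x + t • ∇ φ x, ∇ φ x⟫ := by
          field_simp
        linarith
      have h8 : t * ∫ x in Ω, F x * φ x ≤
          t * ∫ x in Ω, ‖G x + t • ∇ φ x‖ ^ (p - 2) * ⟪G x + t • ∇ φ x, ∇ φ x⟫ := by
        linarith
      exact le_of_mul_le_mul_left h8 ht0
    -- pass to the limit
    have hlim : Tendsto (fun n : ℕ => ∫ x in Ω, ‖G x + ((1 : ℝ) / (n + 1)) • ∇ φ x‖ ^ (p - 2) *
        ⟪G x + ((1 : ℝ) / (n + 1)) • ∇ φ x, ∇ φ x⟫) atTop
        (𝓝 (∫ x in Ω, ‖G x‖ ^ (p - 2) * ⟪G x, ∇ φ x⟫)) := by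
      have hle : ∀ n : ℕ, |(1 : ℝ) / (n + 1)| ≤ 1 := by
        intro n
        have hn : (0:ℝ) ≤ n := Nat.cast_nonneg n
        rw [abs_of_nonneg (by positivity), div_le_one (by positivity)]
        linarith
      apply tendsto_integral_of_dominated_convergence (fun x => (1 + (‖G x‖ + M)) * M)
        (fun n => hmeas _) hbint
      · intro n
        exact Eventually.of_forall (hbd _ (hle n))
      · apply Eventually.of_forall
        intro x
        have h9 : Tendsto (fun n : ℕ => G x + ((1 : ℝ) / (n + 1)) • ∇ φ x) atTop (𝓝 (G x)) := by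
          have h10 := (tendsto_one_div_add_atTop_nhds_zero_nat (𝕜 := ℝ)).smul_const (∇ φ x)
          have h11 := h10.const_add (G x)
          simpa using h11
        exact ((cont_vec p hp1 (∇ φ x)).tendsto (G x)).comp h9
    apply ge_of_tendsto hlim
    apply Eventually.of_forall
    intro n
    have hn : (0:ℝ) ≤ n := Nat.cast_nonneg n
    apply hineq _ (by positivity)
    rw [div_le_one (by positivity)]
    linarith
  intro φ hφ
  have h1 := key φ hφ
  have h2 := key _ (test_neg hφ)
  simp only [grad_neg, inner_neg_right, mul_neg, integral_neg] at h2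
  linarith

/-- the first version of `S_MIN` (with the minus sign inside the integral) also suffices -/
theorem minP_of_old (h : ∀ (N : ℕ) (p : ℝ) (Ω : Set (E N)) (F : E N → ℝ), 2 ≤ N → 1 < p → p < 2 →
    IsOpen Ω → Bornology.IsBounded Ω →
    MemLp F (ENNReal.ofReal (p / (p - 1))) (volume.restrict Ω) →
    ∃ u G, W0 Ω p u G ∧ ∀ v V, W0 Ω p v V →
      1 / p * (∫ x in Ω, (‖G x‖ ^ p - ∫ x in Ω, F x * u x)) ≤
      1 / p * (∫ x in Ω, (‖V x‖ ^ p - ∫ x in Ω, F x * v x))) : MinP := by
  intro N p Ω F hN hp1 hp2 hΩ hΩb hF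
  have hvol : volume Ω < ⊤ := hΩb.measure_lt_top
  have : IsFiniteMeasure (volume.restrict Ω) := ⟨by rwa [Measure.restrict_apply_univ]⟩
  have hp0 : 0 < p := by linarith
  have hEne : ENNReal.ofReal p ≠ 0 := by
    simp only [ne_eq, ENNReal.ofReal_eq_zero, not_le]; exact hp0
  by_cases h0 : volume Ω = 0
  · have hr : volume.restrict Ω = 0 := Measure.restrict_eq_zero.2 h0
    refine ⟨fun _ => 0, fun _ => 0, ⟨by simp [hr], by simp [hr], fun _ _ => 0, ?_, ?_, ?_⟩, ?_⟩
    · intro n
      refine ⟨contDiff_const, HasCompactSupport.zero, ?_⟩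
      have : tsupport (fun _ : E N => (0:ℝ)) = ∅ := by simp [tsupport, Function.support]
      rw [this]; exact empty_subset _
    · simp [hr]
    · simp [hr]
    · intro v V _
      simp [hr]
  · set c : ℝ := (volume Ω).toReal with hc
    have hc0 : 0 < c := ENNReal.toReal_pos h0 hvol.ne
    obtain ⟨u, G, hW, hmin⟩ := h N p Ω (fun x => (p / c) * F x) hN hp1 hp2 hΩ hΩb (hF.const_mul _)
    refine ⟨u, G, hW, ?_⟩
    have hJ : ∀ v V, W0 Ω p v V → 1 / p * (∫ x in Ω, (‖V x‖ ^ p - ∫ x in Ω, (p / c) * F x * v x)) =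
        1 / p * (∫ x in Ω, ‖V x‖ ^ p) - (∫ x in Ω, F x * v x) := by
      intro v V hV
      have hI1 : Integrable (fun x => ‖V x‖ ^ p) (volume.restrict Ω) := by
        have := hV.2.1.integrable_norm_rpow hEne ENNReal.ofReal_ne_top
        simpa [ENNReal.toReal_ofReal hp0.le] using this
      rw [integral_sub hI1 (integrable_const _), integral_const]
      have h2 : ∫ x in Ω, (p / c) * F x * v x = (p / c) * ∫ x in Ω, F x * v x := by
        rw [← integral_const_mul]
        congr 1
        funext x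
        ring
      rw [h2]
      have h3 : (volume.restrict Ω).real univ = c := by
        simp [Measure.real, hc]
      rw [h3, smul_eq_mul]
      field_simp
    intro v V hV
    have h1 := hmin v V hV
    rw [hJ v V hV, hJ u G hW] at h1
    exact h1

theorem exist_thm (hMin : S_MIN) (hVec : S_VEC) : S_EXIST :=
  exist_core (by first | exact hMin | exact minP_of_old hMin) hVec

end Helper19.SDim
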